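import Mathlib

/-!
Triad-balanced families of n-1 latin squares of order n for the non-prime-power orders listed in
`result`, built from cyclic squares L_k(i,j) = i + s_k(j) over Z_n.
-/

namespace Pool.Agent.Results.MP_0f2167_co.NonPrimePower

/-- A latin square of order `n`: every symbol occurs exactly once in each row and each column. -/
def IsLatin {n : ℕ} (M : Fin n → Fin n → Fin n) : Prop :=
  (∀ i, Function.Bijective (fun j => M i j)) ∧ (∀ j, Function.Bijective (fun i => M i j))

/-- The triad `(a,b,c)` sits in row `i`, columns `j, j+1, j+2` (columns numbered from 0). -/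
def OccursAt {n : ℕ} (M : Fin n → Fin n → Fin n) (i : Fin n) (j : Fin (n - 2))
    (a b c : Fin n) : Prop :=
  M i ⟨j.val, by omega⟩ = a ∧ M i ⟨j.val + 1, by omega⟩ = b ∧ M i ⟨j.val + 2, by omega⟩ = c

/-- A family of `n-1` latin squares in whose rows every ordered triad of distinct symbols occurs
exactly once (in exactly one square, one row and one position). -/
def TriadBalanced {n : ℕ} (L : Fin (n - 1) → Fin n → Fin n → Fin n) : Prop :=
  (∀ k, IsLatin (L k)) ∧
  ∀ a b c : Fin n, a ≠ b → a ≠ c → b ≠ c →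
    ∃! p : Fin (n - 1) × Fin n × Fin (n - 2), OccursAt (L p.1) p.2.1 p.2.2 a b c

def Diff {n : ℕ} [NeZero n] (s : Fin (n - 1) → Fin n → Fin n) (p : Fin (n - 1) × Fin (n - 2))
    (d e : Fin n) : Prop :=
  s p.1 ⟨p.2.val + 1, by omega⟩ = s p.1 ⟨p.2.val, by omega⟩ + d ∧
  s p.1 ⟨p.2.val + 2, by omega⟩ = s p.1 ⟨p.2.val, by omega⟩ + e

instance {n : ℕ} [NeZero n] (s : Fin (n - 1) → Fin n → Fin n) (p : Fin (n - 1) × Fin (n - 2))
    (d e : Fin n) : Decidable (Diff s p d e) := by
  unfold Diff; infer_instance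

theorem aux {G : Type} [AddCommGroup G] {i x y a b : G} (h1 : i + x = a) (h2 : i + y = b) :
    y = x + (b - a) := by
  rw [← h1, ← h2]; abel

theorem cyc {n : ℕ} [NeZero n] (s : Fin (n - 1) → Fin n → Fin n)
    (h1 : ∀ k j j', s k j = s k j' → j = j')
    (h2 : ∀ d e : Fin n, d ≠ 0 → e ≠ 0 → d ≠ e →
      ∃ p, Diff s p d e ∧ ∀ q, Diff s q d e → q = p) :
    TriadBalanced (fun k i j => i + s k j) := by
  refine ⟨fun k => ⟨fun i => ?_, fun j => ?_⟩, ?_⟩
  · apply Finite.injective_iff_bijective.mp
    intro j j' h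
    exact h1 k j j' (add_left_cancel h)
  · apply Finite.injective_iff_bijective.mp
    intro i i' h
    exact add_right_cancel h
  · intro a b c hab hac hbc
    obtain ⟨p, ⟨hp1, hp2⟩, hu⟩ := h2 (b - a) (c - a) (sub_ne_zero.mpr hab.symm)
      (sub_ne_zero.mpr hac.symm) (fun h => hbc (sub_left_inj.mp h))
    refine ⟨(p.1, a - s p.1 ⟨p.2.val, by omega⟩, p.2), ⟨?_, ?_, ?_⟩, ?_⟩
    · show a - _ + _ = a
      abel
    · show a - _ + _ = b
      rw [hp1]; abel
    · show a - _ + _ = c
      rw [hp2]; abel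
    · rintro ⟨k, i, j⟩ ⟨q1, q2, q3⟩
      have q1' : i + s k ⟨j.val, by omega⟩ = a := q1
      have q2' : i + s k ⟨j.val + 1, by omega⟩ = b := q2
      have q3' : i + s k ⟨j.val + 2, by omega⟩ = c := q3
      have hq : (k, j) = p := by
        apply hu
        constructor
        · exact aux q1' q2'
        · exact aux q1' q3'
      subst hq
      have hi := eq_sub_of_add_eq q1'
      exact Prod.ext rfl (Prod.ext hi rfl)

/-- Base rows packed five bits per entry. -/
def unpack (n : ℕ) [NeZero n] (t : ℕ) (k : Fin (n - 1)) (j : Fin n) : Fin n :=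
  Fin.ofNat n ((t >>> (5 * (n * k.val + j.val))) % 32)

def t6 : ℕ := 0x6411420104a41806111480194241008110ca0

theorem ex6 : ∃ L : Fin (6 - 1) → Fin 6 → Fin 6 → Fin 6, TriadBalanced L :=
  ⟨_, cyc (unpack 6 t6) (by decide +kernel) (by decide +kernel)⟩

def t10 : ℕ := 0x4649103284e018506224a7101264086139480089093148718101188c429d201a4872a02230049290263a060325031102538067204454a0c0

theorem ex10 : ∃ L : Fin (10 - 1) → Fin 10 → Fin 10 → Fin 10, TriadBalanced L :=
  ⟨_, cyc (unpack 10 t10) (by decide +kernel) (by decide +kernel)⟩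

def t12 : ℕ := 0x290e8588295186028823410e95994042d253a8c410c2048ca60a8475a0800992459c43415402186a409612a4e059145408e608d2022d4938906184a01aca63a5020a88008d642a547408c01ad422a501310e0

theorem ex12 : ∃ L : Fin (12 - 1) → Fin 12 → Fin 12 → Fin 12, TriadBalanced L :=
  ⟨_, cyc (unpack 12 t12) (by decide +kernel) (by decide +kernel)⟩

def t14 : ℕ := 0xed0912a2b0625a0c0510e56204b0a46d3008a19da5099824ad0022d2710d4d29981401445a041499ac194e05316129da811923200883b54660d692844049c88314235898a680a408ce24194b6a5805b1a208d05328e44806c3a9a942cc42882043563124863b025500c259c8d6282848ca0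

theorem ex14 : ∃ L : Fin (14 - 1) → Fin 14 → Fin 14 → Fin 14, TriadBalanced L :=
  ⟨_, cyc (unpack 14 t14) (by decide +kernel) (by decide +kernel)⟩

def t15 : ℕ := 0x12c41dc2205a332caa01867405ab70989228a02192a6ac25638623a00b498a2239430b1a8381217144a3116369d0c019c1534a95918241c6070d0509d696998a2080161d4e410c248cab680471a0c1490aa62dae0350c3a5c65a8a3208204a883330ae4044d3ac062ad891a827734482016c71864534e249501010614b165121a651dc0

theorem ex15 : ∃ L : Fin (15 - 1) → Fin 15 → Fin 15 → Fin 15, TriadBalanced L :=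
  ⟨_, cyc (unpack 15 t15) (by decide +kernel) (by decide +kernel)⟩

def t18 : ℕ := 0x1238bd42736072156132180415e61386722e0c0a54d881492882b2206e8b4cc81de03a1253116e13c2c88daa80169199ca2b10d391f180820724ab5058730d107c5a41008644461130ea5c0ae7a5a04c5c80b1a68114379ca2581225ba06605a77906a895003b8cd78d0982c2a614448816a7b6051b089105c8344e05b1cf08cc4521b049e22280ec499d0289f15b54820c2042e036c4e1331257b88250142638c7784905c5256a0603310b50e2d78827810ae481834460a0b5c93ade4288c0

theorem ex18 : ∃ L : Fin (18 - 1) → Fin 18 → Fin 18 → Fin 18, TriadBalanced L :=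
  ⟨_, cyc (unpack 18 t18) (by decide +kernel) (by decide +kernel)⟩

def t20 : ℕ := 0x534a8884c2726646416793c601a91212d84485a771a0f2c6608c1c26346b22a460a513794e09a0c76b02a2adc914a0323e200ca052466353d86589ae41d208184b09cb11b54f44d24931c024a024346c9ba270a565799407a8a6692413a18e1c5229c1602c0243b8489c5ac30d325a9e038a6f9396c0990d8a60a190a06ca301a44a3066e290eb431e022a212c8ed43c4b740669a580820af14d8a3c96448dc18b4c0585d2324ec6aa337c085189004c56c734a441a620c24f38d40088a65a583792076c64e9a1409a4f26c60c33c6e12d0a2902088928839865126b78647195a01c10650492708ed4be335b0a0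

theorem ex20 : ∃ L : Fin (20 - 1) → Fin 20 → Fin 20 → Fin 20, TriadBalanced L :=
  ⟨_, cyc (unpack 20 t20) (by decide +kernel) (by decide +kernel)⟩

def t21 : ℕ := 0x4a8f268613315e41adc88b0540316e1a28513e068c947691330802430e2f4b9825d14869cb3848148be44330e99a82b6a1d01146038a6c69112599c18aa837c12503a624a22d1a9e7a1161918ac800cf13921852711a9075964d2300f34ceca14222496d72a0344520696668068322e224a9cc91de80220279681945449b16748dc6680ca289727d1b31a1c7626040c40f5c26a19828149a7725858d0801ba747b427321909444b490aa048e20991473da928c935323058192441c5105a33268b51e7123c091b4a784e8893d8152dc2244c0a36240956e9214c1192f9c067005048d20a38dab4cdec308b2701069c99481dc3215e16a62b5080d78869095c794606a218452e60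

theorem ex21 : ∃ L : Fin (21 - 1) → Fin 21 → Fin 21 → Fin 21, TriadBalanced L :=
  ⟨_, cyc (unpack 21 t21) (by decide +kernel) (by decide +kernel)⟩

theorem result : ∀ n ∈ ({6, 10, 12, 14, 15, 18, 20, 21} : Finset ℕ),
    ∃ L : Fin (n - 1) → Fin n → Fin n → Fin n, TriadBalanced L := by
  intro n hn
  simp only [Finset.mem_insert, Finset.mem_singleton] at hn
  rcases hn with rfl | rfl | rfl | rfl | rfl | rfl | rfl | rfl
  · exact ex6
  · exact ex10
  · exact ex12
  · exact ex14
  · exact ex15
  · exact ex18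
  · exact ex20
  · exact ex21

end Pool.Agent.Results.MP_0f2167_co.NonPrimePower
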